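import Pool.Agent.H174.GP.StD

open MeasureTheory ProbabilityTheory Finset Filter Topology

namespace Pool.Agent.H241.GP174

open Pool.Agent.H174.GP

/-- the sum of the values of `f` as an additive homomorphism -/
def sumHom (f : ℕ → ℕ) : Multiset ℕ →+ ℕ where
  toFun s := (s.map f).sum
  map_zero' := by simp
  map_add' s t := by rw [Multiset.map_add, Multiset.sum_add]

theorem gp_colsum : Pool.Agent.H174.GP.S_colsum := by
  intro d g h x hx
  have h1 : ((toP d g h).map (fun a => min a x)).sum =
      ((Finset.univ : Finset (Fin d)).val.map (topP d g) |>.map (fun a => min a x)).sum +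
        sumHom (fun a => min a x) (∑ l : Fin d, Multiset.replicate (h l) ((l : ℕ) + 1)) := by
    unfold toP
    rw [Multiset.map_add, Multiset.sum_add]
    rfl
  rw [h1, map_sum, Multiset.map_map]
  congr 1
  · have h2 : ∀ i : Fin d, ((fun a => min a x) ∘ topP d g) i = x := by
      intro i
      show min (topP d g i) x = x
      unfold topP
      exact min_eq_right (by omega)
    have h3 : (Multiset.map ((fun a => min a x) ∘ topP d g) (Finset.univ : Finset (Fin d)).val).sum =
        ∑ i : Fin d, ((fun a => min a x) ∘ topP d g) i := rfl
    rw [h3, Finset.sum_congr rfl fun i _ => h2 i]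
    simp
  · refine Finset.sum_congr rfl fun l _ => ?_
    show ((Multiset.replicate (h l) ((l : ℕ) + 1)).map (fun a => min a x)).sum = _
    rw [Multiset.map_replicate, Multiset.sum_replicate, smul_eq_mul, mul_comm]

end Pool.Agent.H241.GP174
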